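import Pool.Agent.Helper63.Sey3.Goals
import Pool.Agent.Helper51.Girth4.LLL

/-!
Packet SEY3-LL2: the local lemma with two kinds of events.
-/

namespace Pool.Agent.Helper86.Sey3

open Pool.Agent.Helper41.Girth4 Pool.Agent.Helper63.Sey3

open Classical in
/-- The weighted local lemma. -/
theorem wLLL {I J L : Type} [Fintype I] [Fintype J] [Fintype L] [Nonempty L] (S : J → Set I)
    (A : J → (I → L) → Prop) (x : J → ℝ)
    (hdep : ∀ j ω ω', (∀ i ∈ S j, ω i = ω' i) → A j ω → A j ω')
    (hx0 : ∀ j, 0 ≤ x j) (hx1 : ∀ j, x j < 1)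
    (hp : ∀ j, Pr (A j) ≤ x j * ∏ i, (if ¬ Disjoint (S j) (S i) then 1 - x i else 1)) :
    ∃ ω, ∀ j, ¬ A j ω := by
  let Q : Finset J → ℝ := fun T => Pr (fun ω => ∀ j ∈ T, ¬ A j ω)
  have hQmono : ∀ T T' : Finset J, T ⊆ T' → Q T' ≤ Q T := by
    intro T T' h
    exact Pr_mono fun ω hω j hj => hω j (h hj)
  have hQ0 : ∀ T, 0 ≤ Q T := fun T => Pr_nonneg _
  have hins : ∀ T j, Q (insert j T) = Q T - Pr (fun ω => A j ω ∧ ∀ i ∈ T, ¬ A i ω) := by
    intro T j
    have h1 := Pr_and_not (fun ω : I → L => ∀ i ∈ T, ¬ A i ω) (A j)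
    have h2 : Q (insert j T) = Pr (fun ω => (∀ i ∈ T, ¬ A i ω) ∧ ¬ A j ω) := by
      apply Pr_congr
      intro ω
      simp only [Finset.mem_insert, forall_eq_or_imp]
      tauto
    have h3 : Pr (fun ω => A j ω ∧ ∀ i ∈ T, ¬ A i ω) = Pr (fun ω => (∀ i ∈ T, ¬ A i ω) ∧ A j ω) :=
      Pr_congr fun ω => by tauto
    rw [h2, h1, h3]
  have key : ∀ n : ℕ, ∀ T : Finset J, T.card ≤ n →
      0 < Q T ∧ ∀ j, Pr (fun ω => A j ω ∧ ∀ i ∈ T, ¬ A i ω) ≤ x j * Q T := by
    intro n
    induction n with
    | zero =>
      intro T hT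
      have : T = ∅ := Finset.card_eq_zero.1 (Nat.le_zero.1 hT)
      subst this
      have hQ : Q ∅ = 1 := by
        have : Q ∅ = Pr (fun _ : I → L => True) := Pr_congr fun ω => by simp
        rw [this, Pr_true]
      rw [hQ]
      refine ⟨one_pos, fun j => ?_⟩
      have : Pr (fun ω => A j ω ∧ ∀ i ∈ (∅ : Finset J), ¬ A i ω) = Pr (A j) :=
        Pr_congr fun ω => by simp
      rw [this]
      refine (hp j).trans (mul_le_mul_of_nonneg_left ?_ (hx0 j))
      apply Finset.prod_le_one
      · intro i _
        have := hx1 i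
        split_ifs <;> linarith
      · intro i _
        have := hx0 i
        split_ifs <;> linarith
    | succ n ih =>
      intro T hT
      have hpos : 0 < Q T := by
        rcases T.eq_empty_or_nonempty with rfl | ⟨j, hj⟩
        · exact (ih ∅ (by simp)).1
        · have hc : (T.erase j).card ≤ n := by
            have := Finset.card_erase_of_mem hj
            omega
          have h1 := ih (T.erase j) hc
          have h2 := hins (T.erase j) j
          rw [Finset.insert_erase hj] at h2
          have h3 := h1.2 j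
          rw [h2]
          have h4 := hx1 j
          nlinarith [h1.1]
      refine ⟨hpos, fun j => ?_⟩
      -- split
      let T1 := T.filter fun i => ¬ Disjoint (S j) (S i)
      let T2 := T.filter fun i => Disjoint (S j) (S i)
      have hT2 : T2 ⊆ T := Finset.filter_subset _ _
      have hT1 : T1 ⊆ T := Finset.filter_subset _ _
      have hT12 : T2 ∪ T1 = T := by
        rw [Finset.union_comm]
        ext i
        simp only [T1, T2, Finset.mem_union, Finset.mem_filter]
        tauto
      have hdisj : ∀ i ∈ T1, i ∉ T2 := by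
        intro i h1 h2
        exact (Finset.mem_filter.1 h1).2 (Finset.mem_filter.1 h2).2
      have hind : Pr (fun ω => A j ω ∧ ∀ i ∈ T2, ¬ A i ω) = Pr (A j) * Q T2 := by
        apply Pool.Agent.Helper51.Girth4.Pr_indep (S j) (A j) (fun ω => ∀ i ∈ T2, ¬ A i ω)
          (hdep j)
        intro ω ω' h hω i hi hA
        have hi' : Disjoint (S j) (S i) := (Finset.mem_filter.1 hi).2
        refine hω i hi (hdep i ω' ω ?_ hA)
        intro a ha
        exact (h a (fun haj => Set.disjoint_left.1 hi' haj ha)).symm
      have hle : Pr (fun ω => A j ω ∧ ∀ i ∈ T, ¬ A i ω) ≤ Pr (A j) * Q T2 := by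
        rw [← hind]
        apply Pr_mono
        intro ω hω
        exact ⟨hω.1, fun i hi => hω.2 i (hT2 hi)⟩
      -- `Q T ≥ Q T2 * ∏ (1 - x i)`
      have hstep : ∀ R : Finset J, R ⊆ T1 → Q T2 * ∏ i ∈ R, (1 - x i) ≤ Q (T2 ∪ R) := by
        intro R
        induction R using Finset.induction_on with
        | empty =>
          intro _
          rw [Finset.prod_empty, mul_one, Finset.union_empty]
        | insert i R hi ihR =>
          intro hR
          have hiT1 : i ∈ T1 := hR (Finset.mem_insert_self _ _)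
          have hRT1 : R ⊆ T1 := (Finset.subset_insert _ _).trans hR
          have hnot : i ∉ T2 ∪ R := by
            rw [Finset.mem_union]
            rintro (h | h)
            · exact hdisj i hiT1 h
            · exact hi h
          have hcard : (T2 ∪ R).card ≤ n := by
            have h1 : insert i (T2 ∪ R) ⊆ T := by
              intro k hk
              rcases Finset.mem_insert.1 hk with rfl | hk
              · exact hT1 hiT1
              · rcases Finset.mem_union.1 hk with hk | hk
                · exact hT2 hk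
                · exact hT1 (hRT1 hk)
            have h2 := Finset.card_le_card h1
            rw [Finset.card_insert_of_notMem hnot] at h2
            omega
          have h3 := (ih (T2 ∪ R) hcard).2 i
          have h4 := hins (T2 ∪ R) i
          rw [Finset.prod_insert hi, Finset.union_insert, h4]
          have h5 := ihR hRT1
          have h6 : 0 ≤ 1 - x i := by have := hx1 i; linarith
          calc Q T2 * ((1 - x i) * ∏ k ∈ R, (1 - x k))
              = (1 - x i) * (Q T2 * ∏ k ∈ R, (1 - x k)) := by ring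
            _ ≤ (1 - x i) * Q (T2 ∪ R) := mul_le_mul_of_nonneg_left h5 h6
            _ ≤ Q (T2 ∪ R) - Pr (fun ω => A i ω ∧ ∀ k ∈ T2 ∪ R, ¬ A k ω) := by linarith
      have h7 := hstep T1 (Finset.Subset.refl _)
      rw [hT12] at h7
      have h8 : ∏ i, (if ¬ Disjoint (S j) (S i) then 1 - x i else 1) ≤ ∏ i ∈ T1, (1 - x i) := by
        rw [← Finset.prod_filter]
        have hsub : T1 ⊆ Finset.univ.filter fun i => ¬ Disjoint (S j) (S i) := by
          intro i hi
          simp only [Finset.mem_filter, Finset.mem_univ, true_and]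
          exact (Finset.mem_filter.1 hi).2
        rw [← Finset.prod_sdiff hsub]
        have h9 : ∏ i ∈ (Finset.univ.filter fun i => ¬ Disjoint (S j) (S i)) \ T1, (1 - x i) ≤ 1 := by
          apply Finset.prod_le_one
          · intro i _
            have := hx1 i; linarith
          · intro i _
            have := hx0 i; linarith
        have h10 : 0 ≤ ∏ i ∈ T1, (1 - x i) :=
          Finset.prod_nonneg fun i _ => by have := hx1 i; linarith
        exact mul_le_of_le_one_left h10 h9
      calc Pr (fun ω => A j ω ∧ ∀ i ∈ T, ¬ A i ω) ≤ Pr (A j) * Q T2 := hle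
        _ ≤ (x j * ∏ i, (if ¬ Disjoint (S j) (S i) then 1 - x i else 1)) * Q T2 :=
            mul_le_mul_of_nonneg_right (hp j) (hQ0 _)
        _ ≤ (x j * ∏ i ∈ T1, (1 - x i)) * Q T2 :=
            mul_le_mul_of_nonneg_right (mul_le_mul_of_nonneg_left h8 (hx0 j)) (hQ0 _)
        _ = x j * (Q T2 * ∏ i ∈ T1, (1 - x i)) := by ring
        _ ≤ x j * Q T := mul_le_mul_of_nonneg_left h7 (hx0 j)
  have hfin := (key _ (Finset.univ : Finset J) le_rfl).1
  by_contra hcon
  push Not at hcon
  have : Q Finset.univ = Pr (fun _ : I → L => False) := by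
    apply Pr_congr
    intro ω
    obtain ⟨j, hj⟩ := hcon ω
    constructor
    · intro h
      exact h j (Finset.mem_univ j) hj
    · intro h
      exact h.elim
  rw [this, Pr_false] at hfin
  exact lt_irrefl _ hfin

theorem prod_two {α : Type} [Fintype α] (P : α → Prop) {_ : DecidablePred P} (c : ℝ) (n : ℕ)
    (h0 : 0 ≤ c) (h1 : c ≤ 1)
    (hn : Nat.card {a // P a} ≤ n) : c ^ n ≤ ∏ a : α, (if P a then c else 1) := by
  rw [← Finset.prod_filter, Finset.prod_const]
  apply pow_le_pow_of_le_one h0 h1
  rw [Nat.card_eq_fintype_card, Fintype.card_subtype] at hn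
  exact hn

theorem goalLL2 : GoalLL2 := by
  intro V I L _ _ _ _ K S1 S2 A1 A2 p p' R m h1 h2 hp hp' hR hpR hA1 hA2 c1 c2 c3 c4 h30
  have h4p : 4 * p ≤ 1 / 2 := by
    have : (1 : ℝ) ≤ R := by exact_mod_cast hR
    nlinarith
  obtain ⟨ω, hω⟩ := wLLL (J := V ⊕ Fin K) (Sum.elim S1 S2) (Sum.elim A1 A2)
    (Sum.elim (fun _ => 4 * p) (fun _ => 1 / 20)) (by
      rintro (v | l) ω ω' h
      · exact h1 v ω ω' h
      · exact h2 l ω ω' h) (by
      rintro (v | l)
      · simp only [Sum.elim_inl]; positivity
      · simp only [Sum.elim_inr]; norm_num) (by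
      rintro (v | l)
      · simp only [Sum.elim_inl]; linarith
      · simp only [Sum.elim_inr]; norm_num) (by
      rintro (v | l)
      · simp only [Sum.elim_inl, Fintype.prod_sum_type, Sum.elim_inr]
        have e3 : (1 : ℝ) / 2 ≤ (1 - 4 * p) ^ R := by
          have := one_add_mul_le_pow (a := -(4 * p)) (by linarith) R
          have e4 : (1 : ℝ) + -(4 * p) = 1 - 4 * p := by ring
          rw [e4] at this
          nlinarith
        refine (hA1 v).trans ?_
        have e5 : ∀ a b : ℝ, (1 - 4 * p) ^ R ≤ a → (1 - 1 / 20 : ℝ) ^ 3 ≤ b →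
            p ≤ 4 * p * (a * b) := by
          intro a b ha hb
          have e6 : (1 : ℝ) / 2 * (1 - 1 / 20 : ℝ) ^ 3 ≤ a * b :=
            mul_le_mul (e3.trans ha) hb (by norm_num) (by linarith [e3.trans ha])
          have e7 : (1 : ℝ) / 4 ≤ (1 : ℝ) / 2 * (1 - 1 / 20 : ℝ) ^ 3 := by norm_num
          nlinarith [e7.trans e6]
        exact e5 _ _ (prod_two _ _ R (by linarith) (by linarith) (c1 v))
          (prod_two _ _ 3 (by norm_num) (by norm_num) (c2 v))
      · simp only [Sum.elim_inl, Fintype.prod_sum_type, Sum.elim_inr]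
        have e3 : Real.exp (-(8 * p * m)) ≤ (1 - 4 * p) ^ m := by
          have e4 : Real.exp (-(8 * p)) ≤ 1 - 4 * p := by
            rw [Real.exp_neg]
            have e5 : 1 + 8 * p ≤ Real.exp (8 * p) := by
              have := Real.add_one_le_exp (8 * p)
              linarith
            have e6 : (0 : ℝ) < 1 + 8 * p := by linarith
            calc (Real.exp (8 * p))⁻¹ ≤ (1 + 8 * p)⁻¹ := inv_anti₀ e6 e5
              _ ≤ 1 - 4 * p := by
                rw [inv_le_iff_one_le_mul₀ e6]
                nlinarith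
          calc Real.exp (-(8 * p * m)) = Real.exp (-(8 * p)) ^ m := by
                rw [← Real.exp_nat_mul]
                congr 1
                ring
            _ ≤ (1 - 4 * p) ^ m := pow_le_pow_left₀ (Real.exp_pos _).le e4 m
        refine (hA2 l).trans ?_
        have e9 := Real.exp_pos (-(8 * p * m))
        have e8 : 30 * p' ≤ Real.exp (-(8 * p * m)) := by
          have e10 := mul_le_mul_of_nonneg_right h30 e9.le
          rw [mul_assoc, ← Real.exp_add, add_neg_cancel, Real.exp_zero, mul_one, one_mul] at e10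
          exact e10
        have e5 : ∀ a b : ℝ, (1 - 4 * p) ^ m ≤ a → (1 - 1 / 20 : ℝ) ^ 5 ≤ b →
            p' ≤ 1 / 20 * (a * b) := by
          intro a b ha hb
          have e6 : Real.exp (-(8 * p * m)) * (1 - 1 / 20 : ℝ) ^ 5 ≤ a * b :=
            mul_le_mul (e3.trans ha) hb (by norm_num) (e9.le.trans (e3.trans ha))
          have e7 : (2 : ℝ) / 3 ≤ (1 - 1 / 20 : ℝ) ^ 5 := by norm_num
          have e11 := mul_le_mul_of_nonneg_left e7 e9.le
          linarith
        exact e5 _ _ (prod_two _ _ m (by linarith) (by linarith) (c3 l))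
          (prod_two _ _ 5 (by norm_num) (by norm_num) (c4 l)))
  exact ⟨ω, fun v => hω (Sum.inl v), fun l => hω (Sum.inr l)⟩

end Pool.Agent.Helper86.Sey3
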